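import Mathlib
import Pool.Agent.Helper278.DefsG
import Pool.Agent.Helper278.CEStmt
import Pool.Agent.Helper436.SM.Stmt
import Pool.Agent.Helper436.SN.StmtG
import Pool.Agent.Helper436.SN.Final2
import Pool.Agent.Helper133.F2.ThmF
import Pool.Agent.Y241.OA.Fg

/-!
# A finitely generated, torsion-free, residually finite example

The group is `Γ = G × G` with `G = (K × K) ⋊ ℤ`, where `K` is the free group on `ℤ ⊔ {a, b}` and `ℤ`
acts diagonally by the shift of the first generators. The starting file `SquareGroup` shows that
`Γ` is icc and not inner amenable and that `L(Γ)` is not elementarily equivalent to `L(F_2)`. Here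
we show that `Γ` is finitely generated, torsion-free and residually finite.
-/

set_option autoImplicit false

namespace Pool.Agent.Results.MP_5185df_an.ResiduallyFinite

open Pool.Agent.Helper278 Pool.Agent.Helper436.SM Pool.Agent.Helper436.SN

universe w

/-- There is a finitely generated, torsion-free and residually finite group `G` which is icc and not
inner amenable, such that `L(G)` is not elementarily equivalent to `L(F_2)`. -/
theorem result : ∃ (G : Type) (_ : Group G), Group.FG G ∧
    (∀ g : G, g ≠ 1 → ∀ n : ℕ, 0 < n → g ^ n ≠ 1) ∧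
    (∀ g : G, g ≠ 1 → ∃ (P : Type) (_ : Group P) (f : G →* P), Finite P ∧ f g ≠ 1) ∧
    Countable G ∧ IsICC G ∧ ¬ InnerAmenable G ∧
    ¬ ElemEquiv.{w} (trL G) (trL (FreeGroup (Fin 2))) :=
  ⟨GG × GG, inferInstance, Pool.Agent.Y241.OA.fg_prod, Pool.Agent.Y241.OA.tf_prod,
    Pool.Agent.Y241.OA.rf_prod', gam_countable, gam_isICC, gam_not_innerAmenable,
    not_elemEquiv_of (fun p hp u x hu hx h1 h2 h3 h4 =>
      Pool.Agent.Helper133.F2.thmF _ p hp u x hu hx h1 h2 h3 h4)⟩

end Pool.Agent.Results.MP_5185df_an.ResiduallyFinite
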